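import Pool.Agent.Y788.SL.Stm

/-!
# Project SL: all transvections are conjugate
-/

set_option autoImplicit false

namespace Pool.Agent.Y185.SL

open Matrix Pool.Agent.Y788.SL

section
variable {F : Type} [Field F] {n : ℕ}

theorem exists_dec (v φ : Fin n → F) (hv : v ≠ 0) (hφ : φ ≠ 0) (h : φ ⬝ᵥ v = 0) :
    ∃ (W : Submodule F (Fin n → F)) (T : (Fin n → F) ≃ₗ[F] ((F × F) × W)),
      T v = ((1, 0), 0) ∧ ∀ x, φ ⬝ᵥ x = (T x).1.2 := by
  obtain ⟨i, hi⟩ := Function.ne_iff.1 hφ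
  obtain ⟨j, hj⟩ := Function.ne_iff.1 hv
  rw [Pi.zero_apply] at hi hj
  let a : (Fin n → F) →ₗ[F] F := (v j)⁻¹ • LinearMap.proj j
  let b : (Fin n → F) →ₗ[F] F :=
    { toFun := fun x => φ ⬝ᵥ x
      map_add' := fun x y => dotProduct_add φ x y
      map_smul' := fun c x => by simp [dotProduct_smul] }
  have hav : a v = 1 := by
    simp [a, hj]
  have hbv : b v = 0 := h
  have hb0 : b (Pi.single i (φ i)⁻¹) = 1 := by
    change φ ⬝ᵥ (Pi.single i (φ i)⁻¹) = 1
    rw [dotProduct_single, mul_inv_cancel₀ hi]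
  obtain ⟨e, hae, hbe⟩ : ∃ e, a e = 0 ∧ b e = 1 := by
    refine ⟨Pi.single i (φ i)⁻¹ - a (Pi.single i (φ i)⁻¹) • v, ?_, ?_⟩
    · rw [map_sub, map_smul, hav, smul_eq_mul, mul_one, sub_self]
    · rw [map_sub, map_smul, hbv, hb0, smul_zero, sub_zero]
  have hW : ∀ x, x - a x • v - b x • e ∈ LinearMap.ker a ⊓ LinearMap.ker b := by
    intro x
    rw [Submodule.mem_inf, LinearMap.mem_ker, LinearMap.mem_ker]
    constructor
    · simp only [map_sub, map_smul, hav, hae, smul_eq_mul]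
      ring
    · simp only [map_sub, map_smul, hbv, hbe, smul_eq_mul]
      ring
  let W := LinearMap.ker a ⊓ LinearMap.ker b
  let T : (Fin n → F) ≃ₗ[F] ((F × F) × W) :=
    { toFun := fun x => ((a x, b x), ⟨x - a x • v - b x • e, hW x⟩)
      map_add' := fun x y => by
        refine Prod.ext (Prod.ext ?_ ?_) (Subtype.ext ?_)
        · simp
        · simp
        · simp only [map_add, add_smul, Prod.snd_add, Submodule.coe_add]
          abel
      map_smul' := fun c x => by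
        refine Prod.ext (Prod.ext ?_ ?_) (Subtype.ext ?_)
        · simp
        · simp
        · simp only [map_smul, smul_eq_mul, RingHom.id_apply, Prod.smul_snd,
            Submodule.coe_smul, smul_sub, smul_smul]
      invFun := fun p => p.1.1 • v + p.1.2 • e + (p.2 : Fin n → F)
      left_inv := fun x => by
        simp only
        abel
      right_inv := fun p => by
        obtain ⟨⟨s, t⟩, ⟨w, hw⟩⟩ := p
        have hw' := hw
        rw [Submodule.mem_inf, LinearMap.mem_ker, LinearMap.mem_ker] at hw'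
        obtain ⟨hw1, hw2⟩ := hw'
        have h1 : a (s • v + t • e + w) = s := by
          rw [map_add, map_add, map_smul, map_smul, hav, hae, hw1]
          simp
        have h2 : b (s • v + t • e + w) = t := by
          rw [map_add, map_add, map_smul, map_smul, hbv, hbe, hw2]
          simp
        refine Prod.ext (Prod.ext ?_ ?_) (Subtype.ext ?_)
        · exact h1
        · exact h2
        · simp only [h1, h2]
          abel }
  refine ⟨W, T, ?_, fun x => rfl⟩
  refine Prod.ext (Prod.ext ?_ ?_) (Subtype.ext ?_)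
  · exact hav
  · exact hbv
  · change v - a v • v - b v • e = 0
    rw [hav, hbv]
    simp

theorem exists_conj [Finite F] [CharP F 2] (v φ v' φ' : Fin n → F) (hv : v ≠ 0) (hφ : φ ≠ 0)
    (h : φ ⬝ᵥ v = 0) (hv' : v' ≠ 0) (hφ' : φ' ≠ 0) (h' : φ' ⬝ᵥ v' = 0) :
    ∃ (H : (Fin n → F) →ₗ[F] (Fin n → F)) (s : F), LinearMap.det H = 1 ∧ H v = s • v' ∧
      ∀ x, φ' ⬝ᵥ (H x) = s * (φ ⬝ᵥ x) := by
  obtain ⟨W, T, hT1, hT2⟩ := exists_dec v φ hv hφ h
  obtain ⟨W', T', hT1', hT2'⟩ := exists_dec v' φ' hv' hφ' h'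
  have hW : Module.finrank F W = Module.finrank F W' := by
    have h1 := T.finrank_eq
    have h2 := T'.finrank_eq
    rw [Module.finrank_prod] at h1 h2
    omega
  let j : W ≃ₗ[F] W' := LinearEquiv.ofFinrankEq W W' hW
  let h1 : (Fin n → F) ≃ₗ[F] (Fin n → F) :=
    (T.trans ((LinearEquiv.refl F (F × F)).prodCongr j)).trans T'.symm
  have hd : LinearMap.det (h1 : (Fin n → F) →ₗ[F] (Fin n → F)) ≠ 0 :=
    (LinearEquiv.isUnit_det' h1).ne_zero
  obtain ⟨s, hs⟩ : ∃ s : F, (LinearMap.det (h1 : (Fin n → F) →ₗ[F] (Fin n → F)))⁻¹ = s * s := by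
    have := FiniteField.isSquare_of_char_two (F := F) (ringChar.eq F 2 ▸ rfl)
      ((LinearMap.det (h1 : (Fin n → F) →ₗ[F] (Fin n → F)))⁻¹)
    exact this
  let k : (Fin n → F) →ₗ[F] (Fin n → F) :=
    (T.symm : ((F × F) × W) →ₗ[F] (Fin n → F)) ∘ₗ
      (LinearMap.prodMap (s • (LinearMap.id : (F × F) →ₗ[F] (F × F)))
        (LinearMap.id : W →ₗ[F] W)) ∘ₗ (T.symm.symm : (Fin n → F) →ₗ[F] ((F × F) × W))
  have hk : LinearMap.det k = s * s := by
    simp only [k]
    rw [LinearMap.det_conj, LinearMap.det_prodMap, LinearMap.det_smul, LinearMap.det_id,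
      LinearMap.det_id, mul_one, mul_one, Module.finrank_prod, Module.finrank_self]
    ring
  have hkT : ∀ x, T (k x) = (s • (T x).1, (T x).2) := by
    intro x
    simp [k]
  refine ⟨(h1 : (Fin n → F) →ₗ[F] (Fin n → F)) ∘ₗ k, s, ?_, ?_, ?_⟩
  · rw [LinearMap.det_comp, hk, ← hs, mul_inv_cancel₀ hd]
  · have h2 : T' (h1 (k v)) = T' (s • v') := by
      simp only [h1, LinearEquiv.trans_apply, LinearEquiv.apply_symm_apply]
      rw [hkT, hT1, map_smul, hT1']
      simp
    exact T'.injective h2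
  · intro x
    rw [hT2', hT2]
    simp only [h1, LinearMap.comp_apply, LinearEquiv.coe_coe, LinearEquiv.trans_apply,
      LinearEquiv.apply_symm_apply]
    rw [hkT]
    simp

theorem mat_conj [Finite F] [CharP F 2] (v φ v' φ' : Fin n → F) (hv : v ≠ 0) (hφ : φ ≠ 0)
    (h : φ ⬝ᵥ v = 0) (hv' : v' ≠ 0) (hφ' : φ' ≠ 0) (h' : φ' ⬝ᵥ v' = 0) :
    ∃ M : Matrix (Fin n) (Fin n) F, M.det = 1 ∧
      M * (1 + vecMulVec v φ) = (1 + vecMulVec v' φ') * M := by
  obtain ⟨H, s, hH, hHv, hHφ⟩ := exists_conj v φ v' φ' hv hφ h hv' hφ' h'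
  refine ⟨LinearMap.toMatrix' H, ?_, ?_⟩
  · rw [LinearMap.det_toMatrix', hH]
  · rw [mul_add, add_mul, mul_one, one_mul, mul_vecMulVec, vecMulVec_mul]
    have h1 : LinearMap.toMatrix' H *ᵥ v = s • v' := by
      rw [LinearMap.toMatrix'_mulVec, hHv]
    have h2 : φ' ᵥ* LinearMap.toMatrix' H = s • φ := by
      ext i
      have h3 := hHφ (Pi.single i 1)
      rw [← LinearMap.toMatrix'_mulVec, dotProduct_mulVec, dotProduct_single_one,
        dotProduct_single_one] at h3
      rw [h3]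
      rfl
    rw [h1, h2, smul_vecMulVec, vecMulVec_smul]

end

theorem t_D : SD := by
  intro F _ _ _ n g g' hg hg'
  obtain ⟨v, φ, hv, hφ, hφv, hgm⟩ := hg
  obtain ⟨v', φ', hv', hφ', hφv', hgm'⟩ := hg'
  obtain ⟨M, hM, hMg⟩ := mat_conj v φ v' φ' hv hφ hφv hv' hφ' hφv'
  obtain ⟨P, hP⟩ : ∃ P : SpecialLinearGroup (Fin n) F, (P : Matrix (Fin n) (Fin n) F) = M :=
    ⟨⟨M, hM⟩, rfl⟩
  refine ⟨P, ?_⟩
  have h1 : g' * P = P * g := by
    have h2 : ((g' * P : SpecialLinearGroup (Fin n) F) : Matrix (Fin n) (Fin n) F) =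
        ((P * g : SpecialLinearGroup (Fin n) F) : Matrix (Fin n) (Fin n) F) := by
      change (g' : Matrix (Fin n) (Fin n) F) * (P : Matrix (Fin n) (Fin n) F) =
        (P : Matrix (Fin n) (Fin n) F) * (g : Matrix (Fin n) (Fin n) F)
      rw [hgm, hgm', hP]
      exact hMg.symm
    exact Subtype.ext h2
  rw [← h1, mul_inv_cancel_right]

end Pool.Agent.Y185.SL
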