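import Pool.Agent.Y788.SL.Stm

/-!
# Project SL: the abstract move for Heilbronn functions
-/

set_option autoImplicit false

namespace Pool.Agent.Y185.SL

open Pool.Agent.H302R2 Pool.Agent.Y788.SL

/-- the comparison on a group in which `g` and `a` commute -/
theorem two_comm {Q : Type} [Group Q] [Finite Q] {η : Q → ℂ} (hη : IsHeilbronn η) (g a : Q)
    (hga : g * a = a * g) (ha2 : a * a = 1) :
    ‖η g - η (g * a)‖ ≤ (η 1).re - (η a).re := by
  have hcomm : ∀ x ∈ ({g, a} : Set Q), ∀ y ∈ ({g, a} : Set Q), x * y = y * x := by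
    intro x hx y hy
    rcases hx with rfl | hx <;> rcases hy with rfl | hy
    · rfl
    · rw [Set.mem_singleton_iff.mp hy]; exact hga
    · rw [Set.mem_singleton_iff.mp hx]; exact hga.symm
    · rw [Set.mem_singleton_iff.mp hx, Set.mem_singleton_iff.mp hy]
  have hcm := Subgroup.isMulCommutative_closure hcomm
  obtain ⟨ι, _, ψ, n, h⟩ := (hη.comp (Subgroup.closure ({g, a} : Set Q)).subtype).comm_decomp
    (fun x y => hcm.is_comm.comm x y)
  set g' : Subgroup.closure ({g, a} : Set Q) := ⟨g, Subgroup.subset_closure (by simp)⟩ with hg'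
  set a' : Subgroup.closure ({g, a} : Set Q) := ⟨a, Subgroup.subset_closure (by simp)⟩ with ha'
  have ha2' : a' * a' = 1 := Subtype.ext ha2
  have e1 : η g = ∑ i, (n i : ℂ) * ((ψ i g' : ℂˣ) : ℂ) := h g'
  have e2 : η (g * a) = ∑ i, (n i : ℂ) * ((ψ i (g' * a') : ℂˣ) : ℂ) := h (g' * a')
  have e3 : η 1 = ∑ i, (n i : ℂ) * ((ψ i 1 : ℂˣ) : ℂ) := h 1
  have e4 : η a = ∑ i, (n i : ℂ) * ((ψ i a' : ℂˣ) : ℂ) := h a'
  have hψ : ∀ i e, ‖((ψ i e : ℂˣ) : ℂ)‖ = 1 := by
    intro i e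
    have h1 : ((ψ i e : ℂˣ) : ℂ) ^ (Nat.card (Subgroup.closure ({g, a} : Set Q))) = 1 := by
      rw [← Units.val_pow_eq_pow_val, ← map_pow, pow_card_eq_one', map_one, Units.val_one]
    exact Complex.norm_eq_one_of_pow_eq_one h1 Nat.card_pos.ne'
  have hψa : ∀ i, ((ψ i a' : ℂˣ) : ℂ) = 1 ∨ ((ψ i a' : ℂˣ) : ℂ) = -1 := by
    intro i
    rw [← mul_self_eq_one_iff, ← Units.val_mul, ← map_mul, ha2', map_one, Units.val_one]
  have key : ∀ i, ‖(n i : ℂ) * ((ψ i g' : ℂˣ) : ℂ) - (n i : ℂ) * ((ψ i (g' * a') : ℂˣ) : ℂ)‖ ≤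
      ((n i : ℂ) * ((ψ i 1 : ℂˣ) : ℂ)).re - ((n i : ℂ) * ((ψ i a' : ℂˣ) : ℂ)).re := by
    intro i
    rw [map_mul, Units.val_mul, map_one, Units.val_one]
    rcases hψa i with h1 | h1
    · rw [h1, mul_one, sub_self, norm_zero, sub_self]
    · rw [h1]
      have h2 : (n i : ℂ) * ((ψ i g' : ℂˣ) : ℂ) - (n i : ℂ) * (((ψ i g' : ℂˣ) : ℂ) * -1) =
          (2 * n i : ℂ) * ((ψ i g' : ℂˣ) : ℂ) := by ring
      rw [h2, norm_mul, hψ, mul_one, norm_mul, Complex.norm_natCast]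
      simp
      linarith
  rw [e1, e2, e3, e4, ← Finset.sum_sub_distrib, Complex.re_sum, Complex.re_sum,
    ← Finset.sum_sub_distrib]
  exact (norm_sum_le _ _).trans (Finset.sum_le_sum fun i _ => key i)

theorem t_C : SC := by
  intro S _ _ θ hθ D g a f hgD haD hga ha2 h1 h2 h3 h4
  classical
  have hgH : g ∈ Subgroup.normalizer (D : Set S) := Subgroup.mem_normalizer_fintype hgD
  have haH : a ∈ Subgroup.normalizer (D : Set S) := Subgroup.mem_normalizer_fintype fun d hd => by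
    rw [haD d hd, mul_inv_cancel_right]
    exact hd
  set H : Subgroup S := Subgroup.normalizer (D : Set S) with hH
  have hDH : D ≤ H := Subgroup.le_normalizer
  have hN : (D.subgroupOf H).Normal := Subgroup.normal_in_normalizer
  have hη := (hθ.comp H.subtype).avg (D.subgroupOf H)
  set η := Pool.Agent.H302R2.avg (D.subgroupOf H) (fun e : H => θ (H.subtype e)) with hηd
  have : Fintype (D.subgroupOf H) := Fintype.ofFinite _
  have hcard : Nat.card (D.subgroupOf H) = Nat.card D :=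
    Nat.card_congr (Subgroup.subgroupOfEquivOfLe hDH).toEquiv
  have hc0 : (Nat.card D : ℂ) ≠ 0 := by exact_mod_cast Nat.card_pos.ne'
  have hc0' : (0 : ℝ) < Nat.card D := by exact_mod_cast Nat.card_pos
  have hmk : ∀ x : H, η (x : H ⧸ D.subgroupOf H) =
      (Nat.card D : ℂ)⁻¹ * ∑ n : D.subgroupOf H, θ ((x : S) * ((n : H) : S)) := by
    intro x
    rw [hηd, avg_mk, hcard, finsum_eq_sum_of_fintype]
    rfl
  have hconst : ∀ (x : H) (c : ℂ), (∀ d ∈ D, θ ((x : S) * d) = c) →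
      η (x : H ⧸ D.subgroupOf H) = c := by
    intro x c hx
    rw [hmk, Finset.sum_congr rfl (fun n _ => hx _ n.2), Finset.sum_const, Finset.card_univ,
      nsmul_eq_mul, ← Nat.card_eq_fintype_card, hcard, ← mul_assoc, inv_mul_cancel₀ hc0, one_mul]
  set g' : H := ⟨g, hgH⟩ with hg'
  set a' : H := ⟨a, haH⟩ with ha'
  have e1 : η (g' : H ⧸ D.subgroupOf H) = θ g := hconst g' _ h1
  have e2 : η ((g' * a' : H) : H ⧸ D.subgroupOf H) = θ (g * a) := hconst (g' * a') _ h2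
  have e3 : η (a' : H ⧸ D.subgroupOf H) = f := hconst a' _ h4
  have e4 : η (1 : H ⧸ D.subgroupOf H) = f + (Nat.card D : ℂ)⁻¹ * (θ 1 - f) := by
    rw [← QuotientGroup.mk_one, hmk]
    have h5 : ∀ n : D.subgroupOf H, θ (((1 : H) : S) * ((n : H) : S)) =
        f + (if n = 1 then θ 1 - f else 0) := by
      intro n
      rw [OneMemClass.coe_one, one_mul]
      by_cases hn : n = 1
      · rw [if_pos hn, hn]
        simp
      · rw [if_neg hn, add_zero]
        refine h3 _ n.2 fun h6 => hn ?_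
        exact Subtype.ext (Subtype.ext h6)
    rw [Finset.sum_congr rfl (fun n _ => h5 n), Finset.sum_add_distrib, Finset.sum_const,
      Finset.card_univ, nsmul_eq_mul, ← Nat.card_eq_fintype_card, hcard,
      Finset.sum_ite_eq' Finset.univ, if_pos (Finset.mem_univ _), mul_add, ← mul_assoc,
      inv_mul_cancel₀ hc0, one_mul]
  have hcom : (g' : H ⧸ D.subgroupOf H) * (a' : H ⧸ D.subgroupOf H) =
      (a' : H ⧸ D.subgroupOf H) * (g' : H ⧸ D.subgroupOf H) := by
    rw [← QuotientGroup.mk_mul, ← QuotientGroup.mk_mul, eq_comm, QuotientGroup.eq]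
    have h6 : (a' * g')⁻¹ * (g' * a') ∈ D.subgroupOf H := by
      rw [Subgroup.mem_subgroupOf]
      have h7 : (((a' * g')⁻¹ * (g' * a') : H) : S) = (a * g)⁻¹ * (g * a * g⁻¹ * a⁻¹) * (a * g) := by
        simp only [Subgroup.coe_mul, Subgroup.coe_inv, hg', ha']
        group
      rw [h7]
      have h8 : (a * g)⁻¹ ∈ H := H.inv_mem (H.mul_mem haH hgH)
      have h9 := (Subgroup.mem_normalizer_iff.1 h8 (g * a * g⁻¹ * a⁻¹)).1 hga
      rwa [inv_inv] at h9
    exact h6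
  have ha2' : (a' : H ⧸ D.subgroupOf H) * (a' : H ⧸ D.subgroupOf H) = 1 := by
    rw [← QuotientGroup.mk_mul, show a' * a' = 1 from Subtype.ext ha2, QuotientGroup.mk_one]
  have h10 := two_comm hη (g' : H ⧸ D.subgroupOf H) (a' : H ⧸ D.subgroupOf H) hcom ha2'
  rw [← QuotientGroup.mk_mul, e1, e2, e3, e4] at h10
  refine h10.trans (le_of_eq ?_)
  have h11 : ((Nat.card D : ℂ)⁻¹ * (θ 1 - f)).re = (Nat.card D : ℝ)⁻¹ * ((θ 1).re - f.re) := by
    have h12 : (Nat.card D : ℂ)⁻¹ = (((Nat.card D : ℝ)⁻¹ : ℝ) : ℂ) := by push_cast; rfl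
    rw [h12, Complex.re_ofReal_mul, Complex.sub_re]
  rw [Complex.add_re, h11]
  field_simp
  ring

end Pool.Agent.Y185.SL
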